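import Pool.Agent.W70.HRC.Stm

/-!
Project HRC: `k + 1` primes in different classes, consecutive among the prime positions.
-/

set_option autoImplicit false

open Finset

namespace Pool.Agent.W74.HRC

open Pool.Agent.H361R2.PP
open Pool.Agent.W70.HR Pool.Agent.W70.HRC

/-- the rough indicator takes the values `0` and `1` -/
lemma rg01 (P : Finset ℕ) (a n : ℕ) : rg P a n = 1 ∨ rg P a n = 0 := by
  unfold rg
  split_ifs
  · exact Or.inl rfl
  · exact Or.inr rfl

lemma rU_le (δ : ℝ) (X : ℕ) (U : Finset ℕ) (n : ℕ) : rU δ X U n ≤ 1 := by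
  unfold rU
  apply Finset.prod_le_one
  · intro a _
    rcases rg01 (P1 (HH X) (JJ δ X)) a n with h | h <;> simp [h]
  · intro a _
    rcases rg01 (P1 (HH X) (JJ δ X)) a n with h | h <;> simp [h]

lemma rU_zero (δ : ℝ) (X : ℕ) (U : Finset ℕ) (n : ℕ)
    (h : ¬ ∀ a ∈ U, rg (P1 (HH X) (JJ δ X)) a n = 1) : rU δ X U n = 0 := by
  push Not at h
  obtain ⟨a, ha, h1⟩ := h
  unfold rU
  apply Finset.prod_eq_zero ha
  rcases rg01 (P1 (HH X) (JJ δ X)) a n with h | h
  · exact absurd h h1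
  · exact h

open Classical in
/-- from the counting inequality to the window -/
lemma wdw_of (hWIN : S_WIN) (k n T K : ℕ) (hk : 1 ≤ k) (hK : 1 ≤ K) (H : Fin T → Fin K → ℕ)
    (hinj : Function.Injective (fun x : Fin T × Fin K => H x.1 x.2))
    (h : k + k * ((univ : Finset (Fin T × Fin K × Fin K)).filter (fun t =>
        H t.1 t.2.1 < H t.1 t.2.2 ∧ (n + H t.1 t.2.1).Prime ∧ (n + H t.1 t.2.2).Prime)).card <
      ((univ : Finset (Fin T × Fin K)).filter (fun x => (n + H x.1 x.2).Prime)).card) :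
    Wdw k n H := by
  set P : Finset ℕ := ((univ : Finset (Fin T × Fin K)).filter
    (fun x => (n + H x.1 x.2).Prime)).image (fun x => H x.1 x.2) with hP
  have hPc : P.card = ((univ : Finset (Fin T × Fin K)).filter
      (fun x => (n + H x.1 x.2).Prime)).card := Finset.card_image_of_injective _ hinj
  have hPm : ∀ a, a ∈ P ↔ ∃ g i, (n + H g i).Prime ∧ H g i = a := by
    intro a
    rw [hP, mem_image]
    constructor
    · rintro ⟨x, hx, rfl⟩
      exact ⟨x.1, x.2, (mem_filter.1 hx).2, rfl⟩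
    · rintro ⟨g, i, h1, rfl⟩
      exact ⟨(g, i), mem_filter.2 ⟨mem_univ _, h1⟩, rfl⟩
  set f : ℕ → ℕ := fun a => if h : ∃ x : Fin T × Fin K, H x.1 x.2 = a then (h.choose.1 : ℕ) else 0
    with hf
  have hfH : ∀ g i, f (H g i) = (g : ℕ) := by
    intro g i
    have hex : ∃ x : Fin T × Fin K, H x.1 x.2 = H g i := ⟨(g, i), rfl⟩
    have h1 : f (H g i) = (hex.choose.1 : ℕ) := by
      rw [hf]
      simp only [hex, dif_pos]
    rw [h1]
    have h2 := hex.choose_spec
    have h3 : hex.choose = (g, i) := hinj h2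
    rw [h3]
  obtain ⟨F, hFP, hFc, hFi, hF⟩ := hWIN k P f hk (by
    rw [hPc]
    refine lt_of_le_of_lt ?_ h
    refine Nat.add_le_add_left (Nat.mul_le_mul_left _ ?_) _
    refine le_trans (Finset.card_le_card (t := ((univ : Finset (Fin T × Fin K × Fin K)).filter
      (fun t => H t.1 t.2.1 < H t.1 t.2.2 ∧ (n + H t.1 t.2.1).Prime ∧
        (n + H t.1 t.2.2).Prime)).image (fun t => (H t.1 t.2.1, H t.1 t.2.2))) ?_)
      Finset.card_image_le
    rintro ⟨x, y⟩ hxy
    rw [mem_filter, mem_product] at hxy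
    obtain ⟨⟨hx, hy⟩, hlt, hfxy⟩ := hxy
    obtain ⟨g, i, hp1, rfl⟩ := (hPm x).1 hx
    obtain ⟨g', j, hp2, rfl⟩ := (hPm y).1 hy
    simp only [hfH] at hfxy
    have hgg : g = g' := Fin.ext hfxy
    subst hgg
    rw [mem_image]
    exact ⟨(g, i, j), mem_filter.2 ⟨mem_univ _, hlt, hp1, hp2⟩, rfl⟩)
  set c : Fin T → Fin K := fun g => if h : ∃ i, H g i ∈ F then h.choose else ⟨0, hK⟩ with hc
  set S : Finset (Fin T) := univ.filter (fun g => ∃ i, H g i ∈ F) with hS
  have hcF : ∀ g ∈ S, H g (c g) ∈ F := by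
    intro g hg
    have h1 : ∃ i, H g i ∈ F := (mem_filter.1 hg).2
    have h2 : c g = h1.choose := by
      rw [hc]
      simp only [h1, dif_pos]
    rw [h2]
    exact h1.choose_spec
  have hFS : F = S.image (fun g => H g (c g)) := by
    ext a
    rw [mem_image]
    constructor
    · intro ha
      obtain ⟨g, i, -, rfl⟩ := (hPm a).1 (hFP ha)
      have hg : g ∈ S := mem_filter.2 ⟨mem_univ _, i, ha⟩
      refine ⟨g, hg, ?_⟩
      apply hFi (hcF g hg) ha
      rw [hfH, hfH]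
    · rintro ⟨g, hg, rfl⟩
      exact hcF g hg
  have hSc : S.card = k + 1 := by
    rw [← hFc, hFS, Finset.card_image_of_injective]
    intro g g' hgg
    have h1 : (g, c g) = (g', c g') := hinj hgg
    exact (Prod.ext_iff.1 h1).1
  refine ⟨S, c, hSc, ?_, ?_⟩
  · intro g hg
    obtain ⟨g', i, h1, h2⟩ := (hPm _).1 (hFP (hcF g hg))
    rw [h2] at h1
    exact h1
  · rintro g i hp ⟨g1, hg1, h1⟩ ⟨g2, hg2, h2⟩
    have h3 := hF (H g i) ((hPm _).2 ⟨g, i, hp, rfl⟩) ⟨_, hcF g1 hg1, h1⟩ ⟨_, hcF g2 hg2, h2⟩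
    rw [hFS, mem_image] at h3
    exact h3

open Classical in
lemma card_pairs (T K : ℕ) (H : Fin T → Fin K → ℕ) :
    2 * ((univ : Finset (Fin T × Fin K × Fin K)).filter (fun t =>
        H t.1 t.2.1 < H t.1 t.2.2)).card ≤ T * K * K := by
  have h1 : ((univ : Finset (Fin T × Fin K × Fin K)).filter (fun t =>
        H t.1 t.2.1 < H t.1 t.2.2)).card = ((univ : Finset (Fin T × Fin K × Fin K)).filter (fun t =>
        H t.1 t.2.2 < H t.1 t.2.1)).card := by
    refine Finset.card_nbij' (fun t => (t.1, t.2.2, t.2.1)) (fun t => (t.1, t.2.2, t.2.1))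
      ?_ ?_ ?_ ?_
    · intro t ht
      simpa using ht
    · intro t ht
      simpa using ht
    · intro t _; rfl
    · intro t _; rfl
  have h2 : Disjoint ((univ : Finset (Fin T × Fin K × Fin K)).filter (fun t =>
        H t.1 t.2.1 < H t.1 t.2.2)) ((univ : Finset (Fin T × Fin K × Fin K)).filter (fun t =>
        H t.1 t.2.2 < H t.1 t.2.1)) := by
    rw [Finset.disjoint_left]
    intro t h3 h4
    exact absurd (mem_filter.1 h3).2 (not_lt.2 (mem_filter.1 h4).2.le)
  calc 2 * ((univ : Finset (Fin T × Fin K × Fin K)).filter (fun t =>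
        H t.1 t.2.1 < H t.1 t.2.2)).card = ((univ : Finset (Fin T × Fin K × Fin K)).filter (fun t =>
        H t.1 t.2.1 < H t.1 t.2.2)).card + ((univ : Finset (Fin T × Fin K × Fin K)).filter (fun t =>
        H t.1 t.2.2 < H t.1 t.2.1)).card := by rw [← h1]; ring
    _ = _ := (Finset.card_union_of_disjoint h2).symm
    _ ≤ (univ : Finset (Fin T × Fin K × Fin K)).card := Finset.card_le_card (subset_univ _)
    _ = T * K * K := by simp; ring

/-- the numerical inequality -/
lemma numer (k : ℕ) (hk : 1 ≤ k) (T A : ℝ) (hT : T = 8 * (k : ℝ) ^ 2 + 1) (hA : 0 ≤ A) :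
    A / (16 * k) ≤ T * (1 / (4 * k)) * (1 - 1 / (48 * k * T)) * A
      - k * ((1 + 1 / (48 * k * T)) * A)
      - k * (T * (4 + 1 / (48 * k * T)) * (1 / (4 * k)) ^ 2 / 2 * A) := by
  have hk0 : (1 : ℝ) ≤ k := by exact_mod_cast hk
  have hT0 : 0 < T := by rw [hT]; positivity
  have e : T * (1 / (4 * k)) * (1 - 1 / (48 * k * T)) * A
      - k * ((1 + 1 / (48 * k * T)) * A)
      - k * (T * (4 + 1 / (48 * k * T)) * (1 / (4 * k)) ^ 2 / 2 * A) =
      A * ((T / (8 * k) - k) - (9 / (1536 * (k : ℝ) ^ 2) + 1 / (48 * T))) := by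
    field_simp
    ring
  rw [e]
  have e2 : T / (8 * (k : ℝ)) - k = 1 / (8 * k) := by
    rw [hT]; field_simp; ring
  rw [e2, div_eq_mul_inv]
  refine mul_le_mul_of_nonneg_left ?_ hA
  have h1 : (9 : ℝ) / (1536 * (k : ℝ) ^ 2) ≤ 1 / (32 * k) := by
    rw [div_le_div_iff₀ (by positivity) (by positivity)]
    nlinarith
  have h2 : (1 : ℝ) / (48 * T) ≤ 1 / (32 * k) := by
    rw [div_le_div_iff₀ (by positivity) (by positivity), hT]
    nlinarith
  have h3 : (16 * (k : ℝ))⁻¹ = 1 / (8 * k) - (1 / (32 * k) + 1 / (32 * k)) := by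
    field_simp; norm_num
  rw [h3]
  linarith

theorem prek : Pool.Agent.W70.HRC.S_PREk := by
  classical
  intro hWT hWIN k hk
  have hk0 : (0 : ℝ) < (k : ℝ) := by exact_mod_cast hk
  obtain ⟨T, hTd⟩ : ∃ T : ℕ, T = 8 * k ^ 2 + 1 := ⟨_, rfl⟩
  rw [← hTd]
  have hT1 : 1 ≤ T := by omega
  have hT0 : (0 : ℝ) < (T : ℝ) := by exact_mod_cast hT1
  have hTr : (T : ℝ) = 8 * (k : ℝ) ^ 2 + 1 := by rw [hTd]; push_cast; ring
  obtain ⟨μ, hμ⟩ : ∃ μ : ℝ, μ = 1 / (4 * (k : ℝ)) := ⟨_, rfl⟩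
  obtain ⟨s, hs⟩ : ∃ s : ℝ, s = 1 / (48 * (k : ℝ) * (T : ℝ)) := ⟨_, rfl⟩
  have hμ0 : 0 < μ := by rw [hμ]; positivity
  have hs0 : 0 < s := by rw [hs]; positivity
  obtain ⟨K, hK, hW⟩ := hWT T μ s hT1 hμ0 hs0
  refine ⟨K, hK, ?_⟩
  have hK0 : (0 : ℝ) < (K : ℝ) := by exact_mod_cast hK
  obtain ⟨δ, hδ, hδ8, M₀, X₀, hM₀, hX⟩ := hW 1 (T * K + 1) one_pos
  refine ⟨δ, 1 / (16 * (k : ℝ) * ((T : ℝ) * K) * M₀), hδ, hδ8, by positivity, X₀, ?_⟩
  intro X hXX b hb
  obtain ⟨hV, hR, hB⟩ := hX X hXX b hb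
  refine ⟨hV, hR, ?_⟩
  intro H hH hinj
  set B : Finset ℕ := (univ : Finset (Fin T × Fin K)).image (fun x => H x.1 x.2) with hBdef
  have hBsub : B ⊆ Bw 1 X b := by
    intro a ha
    rw [hBdef, Finset.mem_image] at ha
    obtain ⟨x, _, rfl⟩ := ha
    exact hH x.1 x.2
  have hBcard : B.card = T * K := by
    rw [hBdef, Finset.card_image_of_injective _ hinj]
    simp
  have hmem : ∀ g i, H g i ∈ B := fun g i => by
    rw [hBdef, Finset.mem_image]
    exact ⟨(g, i), Finset.mem_univ _, rfl⟩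
  obtain ⟨w, A, hw, hOm, hsum, h1, h2⟩ := hB B hBsub hBcard
  have hOm0 : 0 ≤ Om δ X (T * K) := by
    unfold Om
    positivity
  have hA : 0 ≤ A := hOm0.trans hOm
  have hSP : ∀ a, SP X b a = (SI X b).filter (fun n => (n + a).Prime) := by
    intro a
    unfold SP SI
    rw [Finset.filter_filter]
  -- counting functions
  set Q : Finset (Fin T × Fin K × Fin K) := univ.filter (fun t => H t.1 t.2.1 < H t.1 t.2.2)
    with hQ
  have hQc : (Q.card : ℝ) ≤ (T : ℝ) * K * K / 2 := by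
    have := card_pairs T K H
    have h3 : ((2 * Q.card : ℕ) : ℝ) ≤ ((T * K * K : ℕ) : ℝ) := by exact_mod_cast this
    push_cast at h3
    linarith
  set Pc : ℕ → ℝ := fun n => ∑ x : Fin T × Fin K, if (n + H x.1 x.2).Prime then (1 : ℝ) else 0
    with hPc
  set Ec : ℕ → ℝ := fun n => ∑ t ∈ Q,
    if (n + H t.1 t.2.1).Prime ∧ (n + H t.1 t.2.2).Prime then (1 : ℝ) else 0 with hEc
  have hPcc : ∀ n, Pc n = (((univ : Finset (Fin T × Fin K)).filter
      (fun x => (n + H x.1 x.2).Prime)).card : ℝ) := by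
    intro n
    rw [hPc]
    simp only [Finset.sum_boole]
  have hEcc : ∀ n, Ec n = (((univ : Finset (Fin T × Fin K × Fin K)).filter (fun t =>
        H t.1 t.2.1 < H t.1 t.2.2 ∧ (n + H t.1 t.2.1).Prime ∧
          (n + H t.1 t.2.2).Prime)).card : ℝ) := by
    intro n
    rw [hEc]
    simp only [Finset.sum_boole, hQ, Finset.filter_filter]
  -- the three sums
  have s1 : (T : ℝ) * μ * (1 - s) * A ≤ ∑ n ∈ SI X b, w n * Pc n := by
    have e1 : ∑ n ∈ SI X b, w n * Pc n = ∑ x : Fin T × Fin K, ∑ n ∈ SP X b (H x.1 x.2), w n := by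
      simp only [hPc, Finset.mul_sum]
      rw [Finset.sum_comm]
      refine Finset.sum_congr rfl fun x _ => ?_
      rw [hSP, Finset.sum_filter]
      refine Finset.sum_congr rfl fun n _ => ?_
      split_ifs <;> simp
    rw [e1]
    have e2 : ∑ x : Fin T × Fin K, (1 - s) * (μ / K) * A = (T : ℝ) * μ * (1 - s) * A := by
      rw [Finset.sum_const, Finset.card_univ, Fintype.card_prod, Fintype.card_fin,
        Fintype.card_fin, nsmul_eq_mul]
      push_cast
      field_simp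
    rw [← e2]
    exact Finset.sum_le_sum fun x _ => (h1 _ (hmem x.1 x.2)).1
  have s3 : ∑ n ∈ SI X b, w n * Ec n ≤ (T : ℝ) * (4 + s) * μ ^ 2 / 2 * A := by
    have e1 : ∑ n ∈ SI X b, w n * Ec n = ∑ t ∈ Q,
        ∑ n ∈ (SP X b (H t.1 t.2.1)).filter (fun n => (n + H t.1 t.2.2).Prime), w n := by
      simp only [hEc, Finset.mul_sum]
      rw [Finset.sum_comm]
      refine Finset.sum_congr rfl fun t _ => ?_
      rw [hSP, Finset.filter_filter, Finset.sum_filter]
      refine Finset.sum_congr rfl fun n _ => ?_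
      split_ifs <;> simp
    rw [e1]
    have e2 : ∀ t ∈ Q, ∑ n ∈ (SP X b (H t.1 t.2.1)).filter
        (fun n => (n + H t.1 t.2.2).Prime), w n ≤ (4 + s) * (μ / K) ^ 2 * A := by
      intro t ht
      refine h2 _ (hmem _ _) _ (hmem _ _) ?_
      exact (mem_filter.1 ht).2.ne
    refine (Finset.sum_le_card_nsmul _ _ _ e2).trans ?_
    rw [nsmul_eq_mul]
    have e3 : 0 ≤ (4 + s) * (μ / K) ^ 2 * A := by positivity
    refine (mul_le_mul_of_nonneg_right hQc e3).trans (le_of_eq ?_)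
    field_simp
  have s4 : A / (16 * k) ≤ ∑ n ∈ SI X b, w n * (Pc n - k - k * Ec n) := by
    have e1 : ∑ n ∈ SI X b, w n * (Pc n - k - k * Ec n) =
        ∑ n ∈ SI X b, w n * Pc n - k * ∑ n ∈ SI X b, w n - k * ∑ n ∈ SI X b, w n * Ec n := by
      rw [Finset.mul_sum, Finset.mul_sum, ← Finset.sum_sub_distrib, ← Finset.sum_sub_distrib]
      refine Finset.sum_congr rfl fun n _ => by ring
    rw [e1]
    have e2 := numer k hk (T : ℝ) A hTr hA
    rw [← hμ, ← hs] at e2
    have e3 := mul_le_mul_of_nonneg_left hsum hk0.le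
    have e4 := mul_le_mul_of_nonneg_left s3 hk0.le
    linarith
  -- upper bound
  have s5 : ∑ n ∈ SI X b, w n * (Pc n - k - k * Ec n) ≤
      ((T : ℝ) * K) * M₀ * (hitsP δ k X b T K H : ℝ) := by
    have e0 : ((T : ℝ) * K) * M₀ * (hitsP δ k X b T K H : ℝ) = ∑ n ∈ SI X b,
        (if (∀ g i, rg (P1 (HH X) (JJ δ X)) (H g i) n = 1) ∧ Wdw k n H then
          ((T : ℝ) * K) * M₀ else 0) := by
      rw [← Finset.sum_filter, Finset.sum_const, nsmul_eq_mul, mul_comm]
      congr 2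
    rw [e0]
    refine Finset.sum_le_sum fun n hn => ?_
    obtain ⟨hw0, hwM⟩ := hw n hn
    have hPn : Pc n ≤ (T : ℝ) * K := by
      rw [hPcc]
      have : ((univ : Finset (Fin T × Fin K)).filter
        (fun x => (n + H x.1 x.2).Prime)).card ≤ T * K := by
        refine (Finset.card_filter_le _ _).trans ?_
        simp
      exact_mod_cast this
    have hE0 : 0 ≤ Ec n := by rw [hEcc]; positivity
    have hTK0 : 0 < (T : ℝ) * K := by positivity
    by_cases hpos : 0 < Pc n - k - k * Ec n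
    · have hWd : Wdw k n H := by
        refine wdw_of hWIN k n T K hk hK H hinj ?_
        rw [hPcc, hEcc] at hpos
        have h5 : ((k + k * ((univ : Finset (Fin T × Fin K × Fin K)).filter (fun t =>
            H t.1 t.2.1 < H t.1 t.2.2 ∧ (n + H t.1 t.2.1).Prime ∧
              (n + H t.1 t.2.2).Prime)).card : ℕ) : ℝ) <
            (((univ : Finset (Fin T × Fin K)).filter
              (fun x => (n + H x.1 x.2).Prime)).card : ℝ) := by
          push_cast
          linarith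
        exact_mod_cast h5
      by_cases hr : ∀ g i, rg (P1 (HH X) (JJ δ X)) (H g i) n = 1
      · rw [if_pos ⟨hr, hWd⟩]
        have h6 : w n ≤ M₀ := hwM.trans (by
          calc M₀ * rU δ X B n ≤ M₀ * 1 := mul_le_mul_of_nonneg_left (rU_le δ X B n) hM₀.le
            _ = M₀ := mul_one _)
        have h7 : Pc n - k - k * Ec n ≤ (T : ℝ) * K := by
          have := mul_nonneg hk0.le hE0
          linarith
        calc w n * (Pc n - k - k * Ec n) ≤ M₀ * ((T : ℝ) * K) :=
              mul_le_mul h6 h7 hpos.le hM₀.le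
          _ = (T : ℝ) * K * M₀ := by ring
      · have h6 : rU δ X B n = 0 := by
          apply rU_zero
          intro hall
          exact hr (fun g i => hall _ (hmem g i))
        rw [h6, mul_zero] at hwM
        have h7 : w n = 0 := le_antisymm hwM hw0
        rw [h7, zero_mul]
        split_ifs
        · positivity
        · exact le_rfl
    · push Not at hpos
      refine (mul_nonpos_of_nonneg_of_nonpos hw0 hpos).trans ?_
      split_ifs
      · positivity
      · exact le_rfl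
  have s6 := s4.trans s5
  have hfin : A ≤ 16 * (k : ℝ) * ((T : ℝ) * K) * M₀ * (hitsP δ k X b T K H : ℝ) := by
    rw [div_le_iff₀ (by positivity)] at s6
    linarith
  rw [div_mul_eq_mul_div, one_mul, div_le_iff₀ (by positivity)]
  linarith

end Pool.Agent.W74.HRC
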